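import Mathlib

/-!
Decay of `limsup a(n)/n` for almost Golomb sequences.
-/

namespace Pool.Agent.Results.MP_04502c_nt.LimsupTendsToZero

open Filter Topology

/-- The window sum `a(n) + a(n-1) + ⋯ + a(n-r+1)`, with `a(k) = 0` for `k ≤ 0` (natural subtraction
and `a 0 = 0`). -/
def S (r : ℕ) (a : ℕ → ℕ) (n : ℕ) : ℕ := ∑ i ∈ Finset.range r, a (n - i)

/-- `a(1), a(2), …` is a nondecreasing sequence of positive integers with
`a(a(n) + a(n-1) + ⋯ + a(n-r+1)) = n` for all `n ≥ 1` (where `a(k) = 0` for `k ≤ 0`). -/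
structure IsNested (r : ℕ) (a : ℕ → ℕ) : Prop where
  zero : a 0 = 0
  pos : ∀ n, 1 ≤ n → 1 ≤ a n
  mono : ∀ n, 1 ≤ n → a n ≤ a (n + 1)
  eq : ∀ n, 1 ≤ n → a (S r a n) = n

variable {r : ℕ} {a : ℕ → ℕ}

theorem monotone (h : IsNested r a) : Monotone a := by
  refine monotone_nat_of_le_succ fun n => ?_
  rcases Nat.eq_zero_or_pos n with rfl | hn
  · rw [h.zero]; exact Nat.zero_le _
  · exact h.mono n hn

theorem step_le (h : IsNested r a) (n : ℕ) : a (n + 1) ≤ a n + 1 := by
  have h1 := h.eq (a n + 1) (by omega)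
  have h2 : n + 1 ≤ S r a (a n + 1) := by
    by_contra hcon
    have h3 := monotone h (show S r a (a n + 1) ≤ n by omega)
    omega
  have h4 := monotone h h2
  omega

theorem step_le' (h : IsNested r a) (n i : ℕ) : a (n + i) ≤ a n + i := by
  induction i with
  | zero => simp
  | succ i ih =>
    have := step_le h (n + i)
    rw [← add_assoc]
    omega

theorem le_sub_add (h : IsNested r a) (n i : ℕ) : a n ≤ a (n - i) + i := by
  have h1 := step_le' h (n - i) (n - (n - i))
  have h2 : n - i + (n - (n - i)) = n := by omega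
  rw [h2] at h1
  omega

theorem le_self (h : IsNested r a) (n : ℕ) : a n ≤ n := by
  have := step_le' h 0 n
  rw [h.zero] at this
  simpa using this

theorem S_le (h : IsNested r a) (n : ℕ) : S r a n ≤ r * a n := by
  unfold S
  calc ∑ i ∈ Finset.range r, a (n - i) ≤ ∑ _i ∈ Finset.range r, a n :=
        Finset.sum_le_sum fun i _ => monotone h (Nat.sub_le _ _)
    _ = r * a n := by rw [Finset.sum_const, Finset.card_range, smul_eq_mul]

theorem S_le' (h : IsNested r a) (n : ℕ) : S r a n ≤ n * a n := by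
  unfold S
  calc ∑ i ∈ Finset.range r, a (n - i) ≤ ∑ i ∈ Finset.range r, if i < n then a n else 0 := by
        apply Finset.sum_le_sum
        intro i _
        split_ifs with hi
        · exact monotone h (Nat.sub_le _ _)
        · rw [Nat.sub_eq_zero_of_le (not_lt.1 hi), h.zero]
    _ = ∑ i ∈ (Finset.range r).filter (fun i => i < n), a n := (Finset.sum_filter _ _).symm
    _ = ((Finset.range r).filter (fun i => i < n)).card * a n := by
        rw [Finset.sum_const, smul_eq_mul]
    _ ≤ n * a n := by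
        apply Nat.mul_le_mul_right
        calc ((Finset.range r).filter (fun i => i < n)).card ≤ (Finset.range n).card := by
              apply Finset.card_le_card
              intro i hi
              rw [Finset.mem_filter] at hi
              exact Finset.mem_range.2 hi.2
          _ = n := Finset.card_range n

/-- `r a(n) ≤ S(n) + r(r-1)/2`. -/
theorem le_S (h : IsNested r a) (n : ℕ) : 2 * (r * a n) ≤ 2 * S r a n + r * (r - 1) := by
  have h1 : r * a n ≤ S r a n + ∑ i ∈ Finset.range r, i := by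
    unfold S
    rw [← Finset.sum_add_distrib]
    calc r * a n = ∑ _i ∈ Finset.range r, a n := by
          rw [Finset.sum_const, Finset.card_range, smul_eq_mul]
      _ ≤ _ := Finset.sum_le_sum fun i _ => le_sub_add h n i
  have h2 := Finset.sum_range_id_mul_two r
  omega

/-- For `a(n) ≤ r` one has `a(n)² ≤ 2 S(n)`. -/
theorem sq_le_S (h : IsNested r a) (n : ℕ) (hr : a n ≤ r) : a n ^ 2 ≤ 2 * S r a n := by
  have h1 : ∑ i ∈ Finset.range (a n), (a n - i) ≤ S r a n := by
    unfold S
    calc ∑ i ∈ Finset.range (a n), (a n - i) ≤ ∑ i ∈ Finset.range (a n), a (n - i) := by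
          apply Finset.sum_le_sum
          intro i _
          have := le_sub_add h n i
          omega
      _ ≤ _ := Finset.sum_le_sum_of_subset (Finset.range_mono hr)
  have h2 : ∀ k : ℕ, k ^ 2 ≤ 2 * ∑ i ∈ Finset.range k, (k - i) := by
    intro k
    rw [← Finset.sum_range_reflect]
    have e : ∑ j ∈ Finset.range k, (k - (k - 1 - j)) = ∑ j ∈ Finset.range k, (j + 1) := by
      apply Finset.sum_congr rfl
      intro j hj
      have := Finset.mem_range.1 hj
      omega
    rw [e, Finset.sum_add_distrib, Finset.sum_const, Finset.card_range]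
    have h3 := Finset.sum_range_id_mul_two k
    simp only [smul_eq_mul, mul_one]
    rcases Nat.eq_zero_or_pos k with rfl | hk
    · simp
    · have h4 : k * (k - 1) + k = k ^ 2 := by
        obtain ⟨j, rfl⟩ : ∃ j, k = j + 1 := ⟨k - 1, by omega⟩
        simp
        ring
      nlinarith
  have := h2 (a n)
  omega

theorem S_mono (h : IsNested r a) (n : ℕ) : S r a n ≤ S r a (n + 1) := by
  unfold S
  exact Finset.sum_le_sum fun i _ => monotone h (by omega)

theorem S_lt (h : IsNested r a) (n : ℕ) (hn : 1 ≤ n) : S r a n < S r a (n + 1) := by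
  have h1 := S_mono h n
  have h2 := h.eq n hn
  have h3 := h.eq (n + 1) (by omega)
  rcases Nat.lt_or_ge (S r a n) (S r a (n + 1)) with h4 | h4
  · exact h4
  · have : S r a n = S r a (n + 1) := by omega
    rw [this] at h2
    omega

theorem le_S_self (h : IsNested r a) (n : ℕ) : n ≤ S r a n := by
  rcases Nat.eq_zero_or_pos n with rfl | hn
  · exact Nat.zero_le _
  · induction n, hn using Nat.le_induction with
    | base =>
      by_contra hcon
      have h0 : S r a 1 = 0 := Nat.lt_one_iff.1 (not_le.1 hcon)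
      have := h.eq 1 le_rfl
      rw [h0, h.zero] at this
      omega
    | succ n hn ih =>
      have := S_lt h n hn
      omega

theorem S_monotone (h : IsNested r a) : Monotone (S r a) := monotone_nat_of_le_succ (S_mono h)

/-- Locating an integer between consecutive values of `S`. -/
theorem exists_between (h : IsNested r a) (N m : ℕ) (hm : S r a m ≤ N) :
    ∃ n, m ≤ n ∧ S r a n ≤ N ∧ N < S r a (n + 1) := by
  classical
  have hex : ∃ n, N < S r a (n + 1) := ⟨N, by have := le_S_self h (N + 1); omega⟩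
  have h1 := Nat.find_spec hex
  have h2 : S r a (Nat.find hex) ≤ N := by
    rcases Nat.eq_zero_or_pos (Nat.find hex) with h0 | h0
    · rw [h0]
      exact (S_monotone h (Nat.zero_le m)).trans hm
    · have := Nat.find_min hex (m := Nat.find hex - 1) (by omega)
      rw [not_lt, Nat.sub_add_cancel h0] at this
      exact this
  refine ⟨Nat.find hex, ?_, h2, h1⟩
  by_contra hcon
  have := S_monotone h (show Nat.find hex + 1 ≤ m by omega)
  omega

theorem a_bounds (h : IsNested r a) {N n : ℕ} (hn : 1 ≤ n) (h1 : S r a n ≤ N)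
    (h2 : N < S r a (n + 1)) : n ≤ a N ∧ a N ≤ n + 1 := by
  have h3 := monotone h h1
  rw [h.eq n hn] at h3
  have h4 := monotone h h2.le
  rw [h.eq (n + 1) (by omega)] at h4
  exact ⟨h3, h4⟩

/-- `a(m) ≥ j` as soon as `m ≥ j²`. -/
theorem le_of_sq_le (h : IsNested r a) {m j : ℕ} (hj : j ^ 2 ≤ m) : j ≤ a m := by
  rcases Nat.eq_zero_or_pos j with rfl | hj0
  · exact Nat.zero_le _
  · have h1 : S r a j ≤ m := by
      calc S r a j ≤ j * a j := S_le' h j
        _ ≤ j * j := Nat.mul_le_mul_left _ (le_self h j)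
        _ = j ^ 2 := by ring
        _ ≤ m := hj
    have h2 := monotone h h1
    rwa [h.eq j hj0] at h2

/-- In the initial regime the ratio `a(m)/m` is small. -/
theorem ratio_small (h : IsNested r a) (hr : 2 ≤ r) (T m : ℕ) (_hT : 1 ≤ T)
    (hm : (8 * T ^ 2 + 1) ^ 2 ≤ m) (hmr : m < S r a (r + 1)) : T * a m ≤ m := by
  have hm1 : 1 ≤ m := by
    have : 1 ≤ (8 * T ^ 2 + 1) ^ 2 := Nat.one_le_pow _ _ (by omega)
    omega
  have hS1 : S r a 1 ≤ m := by
    have := S_le' h 1
    have := le_self h 1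
    omega
  obtain ⟨n, hn1, hn2, hn3⟩ := exists_between h m 1 hS1
  obtain ⟨h1, h2⟩ := a_bounds h hn1 hn2 hn3
  have hn : 8 * T ^ 2 ≤ n := by
    have := le_of_sq_le h hm
    omega
  have hnr : n ≤ r := by
    by_contra hcon
    have := S_monotone h (show r + 1 ≤ n by omega)
    omega
  -- lower bound for `S n`
  set k := n / 2 with hk
  have hk1 : 4 * T ^ 2 ≤ k := by omega
  have hak : 2 * T ≤ a k := le_of_sq_le h (by nlinarith)
  have hS : (k + 1) * a k ≤ S r a n := by
    unfold S
    calc (k + 1) * a k = ∑ _i ∈ Finset.range (k + 1), a k := by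
          rw [Finset.sum_const, Finset.card_range, smul_eq_mul]
      _ ≤ ∑ i ∈ Finset.range (k + 1), a (n - i) := by
          apply Finset.sum_le_sum
          intro i hi
          have := Finset.mem_range.1 hi
          exact monotone h (by omega)
      _ ≤ _ := Finset.sum_le_sum_of_subset (Finset.range_mono (by omega))
  calc T * a m ≤ T * (n + 1) := Nat.mul_le_mul_left _ h2
    _ ≤ T * (2 * (k + 1)) := Nat.mul_le_mul_left _ (by omega)
    _ = (k + 1) * (2 * T) := by ring
    _ ≤ (k + 1) * a k := Nat.mul_le_mul_left _ hak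
    _ ≤ S r a n := hS
    _ ≤ m := hn2

/-- In the initial regime `a(m)²/m` is large. -/
theorem sq_large (h : IsNested r a) (hr : 2 ≤ r) (T m : ℕ) (hT : 1 ≤ T)
    (hm : ((8 * (4 * T) ^ 2 + 1) ^ 2) ^ 2 ≤ m) (hmr : m < S r a (r + 1)) :
    T * m ≤ a m ^ 2 := by
  have hm1 : 1 ≤ m := by
    have : 1 ≤ ((8 * (4 * T) ^ 2 + 1) ^ 2) ^ 2 :=
      Nat.one_le_pow _ _ (Nat.one_le_pow _ _ (by omega))
    omega
  have hS1 : S r a 1 ≤ m := by
    have := S_le' h 1
    have := le_self h 1
    omega
  obtain ⟨n, hn1, hn2, hn3⟩ := exists_between h m 1 hS1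
  obtain ⟨h1, h2⟩ := a_bounds h hn1 hn2 hn3
  have hn : (8 * (4 * T) ^ 2 + 1) ^ 2 ≤ n + 1 := by
    have := le_of_sq_le h hm
    omega
  have hnr : n ≤ r := by
    by_contra hcon
    have := S_monotone h (show r + 1 ≤ n by omega)
    omega
  have hlt : n + 1 < S r a (r + 1) := by
    -- `S (r+1) ≥ a(r+1) + a(r) + ... > r + 1`
    have h3 : n + 1 ≤ m := by
      have h5 := le_self h m
      have h6 : 2 ≤ n + 1 := by omega
      by_contra hcon
      -- then m ≤ n ≤ a m ≤ m
      have h7 : m = n := by omega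
      have h8 : a m = m := by omega
      -- use `T' a(m) ≤ m`-free contradiction: a(4) ≤ 3
      have h9 : (8 * (4 * T) ^ 2 + 1) ^ 2 ≤ m := by
        have : (8 * (4 * T) ^ 2 + 1) ^ 2 ≤ ((8 * (4 * T) ^ 2 + 1) ^ 2) ^ 2 :=
          Nat.le_self_pow (by norm_num) _
        omega
      have h10 := ratio_small h hr (4 * T) m (by omega) h9 hmr
      rw [h8] at h10
      nlinarith
    omega
  have h3 := ratio_small h hr (4 * T) (n + 1) (by omega) hn hlt
  have h4 := S_le' h (n + 1)
  -- 4 T m ≤ 4 T (n+1) a(n+1) ≤ (n+1)^2 ≤ 4 n^2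
  have h5 : 4 * (T * m) ≤ (n + 1) * (n + 1) := by
    calc 4 * (T * m) = (4 * T) * m := by ring
      _ ≤ (4 * T) * ((n + 1) * a (n + 1)) := Nat.mul_le_mul_left _ (by omega)
      _ = (n + 1) * (4 * T * a (n + 1)) := by ring
      _ ≤ (n + 1) * (n + 1) := Nat.mul_le_mul_left _ h3
  have h6 : n ^ 2 ≤ a m ^ 2 := Nat.pow_le_pow_left h1 2
  have h7 : (n + 1) * (n + 1) ≤ 4 * n ^ 2 := by nlinarith
  omega

/-- The invariant. -/
def Inv (r K : ℕ) (a : ℕ → ℕ) (n : ℕ) : Prop :=
  2 * (K * a n) + r + 4 ≤ 2 * n ∧ 2 * (K * (n + 1)) + r * (r + 2) ≤ 2 * (r * a n)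

/-- The initial window. -/
theorem inv_initial (h : IsNested r a) (K : ℕ) (hK : 1 ≤ K)
    (hr : ((8 * (4 * (8 * K + 5)) ^ 2 + 1) ^ 2) ^ 2 ≤ r) (m : ℕ) (hm : r ≤ m)
    (hmS : m ≤ S r a r) (N : ℕ) (h1 : S r a m ≤ N) (h2 : N < S r a (m + 1)) :
    Inv r K a N := by
  have hr' : (8 * (4 * (8 * K + 5)) ^ 2 + 1) ^ 2 ≤ r :=
    (Nat.le_self_pow (by norm_num) _).trans hr
  have hr'' : (8 * (8 * K + 5) ^ 2 + 1) ^ 2 ≤ r := by
    refine le_trans ?_ hr'
    apply Nat.pow_le_pow_left
    have : (8 * K + 5) ^ 2 ≤ (4 * (8 * K + 5)) ^ 2 := Nat.pow_le_pow_left (by omega) 2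
    omega
  have hr4 : 8 ≤ r := by
    have : 8 * K + 5 ≤ (8 * K + 5) ^ 2 := Nat.le_self_pow (by norm_num) _
    have : 8 * (8 * K + 5) ^ 2 + 1 ≤ (8 * (8 * K + 5) ^ 2 + 1) ^ 2 := Nat.le_self_pow (by norm_num) _
    omega
  have hm1 : 1 ≤ m := by omega
  obtain ⟨h3, h4⟩ := a_bounds h hm1 h1 h2
  have hSlt : S r a r < S r a (r + 1) := S_lt h r (by omega)
  have ham : a m ≤ r := by
    have := monotone h hmS
    rwa [h.eq r (by omega)] at this
  have hS := sq_le_S h m ham
  have hsq := sq_large h (by omega) (8 * K + 5) m (by omega) (by omega) (by omega)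
  -- ratio at `m + 1`
  have hrat : (8 * K + 4) * a (m + 1) ≤ m + (8 * K + 5) := by
    have h5 := ratio_small h (by omega) (8 * K + 5) m (by omega) (by omega) (by omega)
    have h6 := step_le h m
    have h7 : (8 * K + 4) * a (m + 1) ≤ (8 * K + 4) * (a m + 1) := Nat.mul_le_mul_left _ h6
    nlinarith
  refine ⟨?_, ?_⟩
  · -- (U)
    have h5 : K * a N ≤ K * (m + 1) := Nat.mul_le_mul_left _ h4
    have h6 : (8 * K + 5) * m ≤ 2 * N := by omega
    nlinarith
  · -- (L)
    have h5 : N + 1 ≤ r * a (m + 1) := by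
      have := S_le h (m + 1)
      omega
    have h6 : r * m ≤ r * a N := Nat.mul_le_mul_left _ h3
    have h7 : K * (N + 1) ≤ K * (r * a (m + 1)) := Nat.mul_le_mul_left _ h5
    have h8 : 2 * (K * a (m + 1)) + (r + 2) ≤ 2 * m := by
      have hbig : 8 * (8 * K + 5) ≤ m := by
        have e1 : 8 * K + 5 ≤ (8 * K + 5) ^ 2 := Nat.le_self_pow (by norm_num) _
        have e2 : 8 * (8 * K + 5) ^ 2 + 1 ≤ (8 * (8 * K + 5) ^ 2 + 1) ^ 2 :=
          Nat.le_self_pow (by norm_num) _
        omega
      have e3 : 8 * (K * a (m + 1)) + 4 * a (m + 1) ≤ m + (8 * K + 5) := by nlinarith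
      omega
    have h9 : r * (2 * (K * a (m + 1)) + (r + 2)) ≤ r * (2 * m) := Nat.mul_le_mul_left _ h8
    calc 2 * (K * (N + 1)) + r * (r + 2) ≤ 2 * (K * (r * a (m + 1))) + r * (r + 2) := by omega
      _ = r * (2 * (K * a (m + 1)) + (r + 2)) := by ring
      _ ≤ r * (2 * m) := h9
      _ = 2 * (r * m) := by ring
      _ ≤ 2 * (r * a N) := by omega

/-- Propagation of the invariant. -/
theorem inv_step (h : IsNested r a) (hr : 2 ≤ r) (K : ℕ) (n : ℕ) (hn : 1 ≤ n)
    (hi : Inv r K a n) (hi' : Inv r K a (n + 1)) (N : ℕ) (h1 : S r a n ≤ N)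
    (h2 : N < S r a (n + 1)) : Inv r K a N := by
  obtain ⟨h3, h4⟩ := a_bounds h hn h1 h2
  have h5 := le_S h n
  have h6 := S_le h (n + 1)
  obtain ⟨i1, i2⟩ := hi
  obtain ⟨j1, j2⟩ := hi'
  refine ⟨?_, ?_⟩
  · have h7 : K * a N ≤ K * (n + 1) := Nat.mul_le_mul_left _ h4
    have h8 : r * (r + 2) = r * (r - 1) + 3 * r := by
      obtain ⟨s, rfl⟩ : ∃ s, r = s + 1 := ⟨r - 1, by omega⟩
      simp
      ring
    omega
  · have h7 : K * (N + 1) ≤ K * (r * a (n + 1)) := Nat.mul_le_mul_left _ (by omega)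
    have h8 : r * n ≤ r * a N := Nat.mul_le_mul_left _ h3
    have h9 : r * (2 * (K * a (n + 1)) + r + 4) ≤ r * (2 * (n + 1)) := Nat.mul_le_mul_left _ j1
    have e1 : r * (2 * (K * a (n + 1)) + r + 4) = 2 * (K * (r * a (n + 1))) + r * (r + 2) + 2 * r := by
      ring
    have e2 : r * (2 * (n + 1)) = 2 * (r * n) + 2 * r := by ring
    omega

/-- The main bound. -/
theorem bound (K : ℕ) (hK : 1 ≤ K) : ∃ R : ℕ, ∀ r ≥ R, ∀ a : ℕ → ℕ, IsNested r a →
    ∃ n₀ : ℕ, ∀ n ≥ n₀, K * a n ≤ n := by
  refine ⟨((8 * (4 * (8 * K + 5)) ^ 2 + 1) ^ 2) ^ 2, fun r hr a h => ⟨S r a r, fun n hn => ?_⟩⟩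
  have hr1 : 8 ≤ r := by
    have e0 : 4 * (8 * K + 5) ≤ (4 * (8 * K + 5)) ^ 2 := Nat.le_self_pow (by norm_num) _
    have e1 : 8 * (4 * (8 * K + 5)) ^ 2 + 1 ≤ (8 * (4 * (8 * K + 5)) ^ 2 + 1) ^ 2 :=
      Nat.le_self_pow (by norm_num) _
    have e2 : (8 * (4 * (8 * K + 5)) ^ 2 + 1) ^ 2 ≤ ((8 * (4 * (8 * K + 5)) ^ 2 + 1) ^ 2) ^ 2 :=
      Nat.le_self_pow (by norm_num) _
    omega
  have key : ∀ N, S r a r ≤ N → Inv r K a N := by
    intro N
    induction N using Nat.strong_induction_on with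
    | _ N ih =>
      intro hN
      obtain ⟨m, hm1, hm2, hm3⟩ := exists_between h N r hN
      rcases Nat.lt_or_ge (S r a r) m with hmS | hmS
      · -- propagation
        have hmN : m + 1 < N := by
          -- first `m < N`
          have h0 := le_S_self h m
          have i0 : ∀ j, S r a r ≤ j → j < N → Inv r K a j := fun j hj1 hj2 => ih j hj2 hj1
          rcases Nat.lt_or_ge m N with hlt | hge
          · have i1 := (i0 m hmS.le hlt).2
            have h5 := le_S h m
            have h8 : r * (r + 2) = r * (r - 1) + 3 * r := by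
              obtain ⟨s, rfl⟩ : ∃ s, r = s + 1 := ⟨r - 1, by omega⟩
              simp
              ring
            have h9 : m + 1 ≤ K * (m + 1) := Nat.le_mul_of_pos_left _ hK
            omega
          · -- `m = N`, impossible
            exfalso
            have hmN : m = N := by omega
            have i1 := (i0 (m - 1) (by omega) (by omega)).2
            have h5 := le_S h (m - 1)
            have h6 : S r a (m - 1) < S r a m := by
              have := S_lt h (m - 1) (by omega)
              rwa [Nat.sub_add_cancel (by omega)] at this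
            have h8 : r * (r + 2) = r * (r - 1) + 3 * r := by
              obtain ⟨s, rfl⟩ : ∃ s, r = s + 1 := ⟨r - 1, by omega⟩
              simp
              ring
            have h9 : m - 1 + 1 ≤ K * (m - 1 + 1) := Nat.le_mul_of_pos_left _ hK
            omega
        exact inv_step h (by omega) K m (by omega) (ih m (by omega) hmS.le)
          (ih (m + 1) hmN (by omega)) N hm2 hm3
      · exact inv_initial h K hK hr m hm1 hmS N hm2 hm3
  have := (key n hn).1
  omega

theorem limsup_le (K : ℕ) (hK : 1 ≤ K) (a : ℕ → ℕ) (n₀ : ℕ) (h : ∀ n ≥ n₀, K * a n ≤ n) :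
    limsup (fun n : ℕ => (a n : ℝ) / n) atTop ≤ 1 / K := by
  have hK' : (0 : ℝ) < K := by exact_mod_cast hK
  apply limsup_le_of_le
  · refine ⟨0, fun x hx => ?_⟩
    simp only [eventually_map] at hx
    obtain ⟨n, hn⟩ := hx.exists
    exact le_trans (by positivity) hn
  · filter_upwards [eventually_ge_atTop (max n₀ 1)] with n hn
    have h1 := h n (le_trans (le_max_left _ _) hn)
    have hn1 : 1 ≤ n := le_trans (le_max_right _ _) hn
    have hn' : (0 : ℝ) < n := by exact_mod_cast hn1
    rw [div_le_div_iff₀ hn' hK']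
    have : ((K * a n : ℕ) : ℝ) ≤ n := by exact_mod_cast h1
    push_cast at this
    linarith

/-- For every family `a_r` (`r ≥ 2`) of nondecreasing sequences of positive integers satisfying the
nested recurrence of order `r`, `limsup_n a_r(n)/n → 0` as `r → ∞`. -/
theorem result (a : ℕ → ℕ → ℕ) (ha : ∀ r, 2 ≤ r → IsNested r (a r)) :
    Tendsto (fun r : ℕ => limsup (fun n : ℕ => (a r n : ℝ) / n) atTop) atTop (𝓝 0) := by
  rw [Metric.tendsto_atTop]
  intro ε hε
  obtain ⟨K, hK⟩ := exists_nat_gt (1 / ε)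
  have hK0 : 0 < K := by
    have : (0 : ℝ) < K := lt_trans (by positivity) hK
    exact_mod_cast this
  obtain ⟨R, hR⟩ := bound K hK0
  refine ⟨max R 2, fun r hr => ?_⟩
  have h := ha r (le_trans (le_max_right _ _) hr)
  obtain ⟨n₀, hn₀⟩ := hR r (le_trans (le_max_left _ _) hr) (a r) h
  have h1 := limsup_le K hK0 (a r) n₀ hn₀
  have h2 : 0 ≤ limsup (fun n : ℕ => (a r n : ℝ) / n) atTop := by
    apply le_limsup_of_frequently_le
    · exact Frequently.of_forall fun n => by positivity
    · refine ⟨1, ?_⟩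
      simp only [eventually_map]
      refine Eventually.of_forall fun n => ?_
      rcases Nat.eq_zero_or_pos n with rfl | hn
      · simp
      · have hn' : (0 : ℝ) < n := by exact_mod_cast hn
        rw [div_le_one hn']
        exact_mod_cast le_self h n
  rw [Real.dist_eq, sub_zero, abs_of_nonneg h2]
  have hK' : (0 : ℝ) < K := by exact_mod_cast hK0
  have h3 : 1 / (K : ℝ) < ε := by
    rw [div_lt_iff₀ hK']
    rw [div_lt_iff₀ hε] at hK
    linarith
  linarith

end Pool.Agent.Results.MP_04502c_nt.LimsupTendsToZero
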